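import Pool.Agent.H.MP_4770bc_pr.I

/-! A non-amenable graph on which the greedy random walk is recurrent. -/

namespace Pool.Agent.Results.MP_4770bc_pr.No

open MeasureTheory Pool.Agent.H.GRW

def p0 : Par where
  lat := fun _ => ∅
  symm := by simp
  irr := by simp
  M := 1
  M1 := le_rfl
  bd := by simp

theorem result : ∃ (V : Type) (G : SimpleGraph V) (_ : G.LocallyFinite),
    Infinite V ∧ G.Connected ∧
    (∃ c : ℝ, 0 < c ∧ ∀ S : Finset V,
      c * S.card ≤ {e ∈ G.edgeSet | ∃ a ∈ S, ∃ b ∉ S, e = s(a, b)}.ncard ∧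
      c * (∑ a ∈ S, G.degree a : ℕ) ≤ {e ∈ G.edgeSet | ∃ a ∈ S, ∃ b ∉ S, e = s(a, b)}.ncard) ∧
    ∃ v₀ : V, (∃ (Ω : Type) (_ : MeasurableSpace Ω) (P : Measure Ω) (X : ℕ → Ω → V),
        IsGRW G v₀ P X) ∧
      ∀ (Ω : Type) [MeasurableSpace Ω] (P : Measure Ω) (X : ℕ → Ω → V), IsGRW G v₀ P X →
        ∀ᵐ ω ∂P, {t | X t ω = v₀}.Infinite := by
  refine ⟨p0.net.Vx, p0.net.gr, inferInstance,
    Infinite.of_injective (fun n => .inl (.hub n)) fun a b h => by simpa using h, p0.conn,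
    ⟨1 / 17000000, by norm_num, fun S => ?_⟩, _, p0.recurrent⟩
  have h := p0.nonamen S
  have h2 : S.card ≤ ∑ a ∈ S, p0.net.gr.degree a := by
    rw [Finset.card_eq_sum_ones]
    refine Finset.sum_le_sum fun a _ => ?_
    haveI : Nontrivial p0.net.Vx := ⟨⟨.inl (.hub 0), .inl (.hub 1), by simp⟩⟩
    exact (p0.net.gr.degree_pos_iff_exists_adj a).2 (p0.conn.1.exists_adj_of_nontrivial a)
  have h3 : (S.card : ℝ) ≤ (∑ a ∈ S, p0.net.gr.degree a : ℕ) := by exact_mod_cast h2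
  constructor <;> linarith

end Pool.Agent.Results.MP_4770bc_pr.No
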